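import Pool.Agent.Lib.MP_688fd0_co.TE.Iface4

/-!
# Theorem E, module ABS: configurations with distinct vertices are gadgets
-/

set_option linter.unusedSectionVars false

namespace Pool.Agent.Lib.MP_688fd0_co.TE.H39

open Pool.Agent.Lib.MP_688fd0_co.TE

universe u

section path

variable {G : Type u} [Group G] [DecidableEq G] (L : Finset G)

/-- `a :: l` is a path from `a` to `b`. -/
def Path (a b : G) (l : List G) : Prop := steps L (a :: l) ∧ (a :: l).getLast? = some b

variable {L}

theorem Path.single {a b : G} (h : a⁻¹ * b ∈ L) : Path L a b [b] := by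
  refine ⟨?_, by simp⟩
  unfold steps
  simp [h]

theorem Path.append {a b c : G} {l l' : List G} (h : Path L a b l) (h' : Path L b c l') :
    Path L a c (l ++ l') := by
  obtain ⟨h1, h2⟩ := h
  obtain ⟨h3, h4⟩ := h'
  unfold steps at h1 h3
  refine ⟨?_, ?_⟩
  · unfold steps
    rw [← List.cons_append, List.isChain_append]
    refine ⟨h1, ?_, ?_⟩
    · exact (List.isChain_cons.1 h3).2
    · intro x hx y hy
      rw [h2] at hx
      have : b = x := by simpa using hx
      subst this
      exact (List.isChain_cons.1 h3).1 y hy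
  · rw [← List.cons_append]
    rcases List.eq_nil_or_concat l' with rfl | ⟨l'', x, rfl⟩
    · rw [List.append_nil, h2]
      simpa using h4
    · rw [List.concat_eq_append] at h4 ⊢
      rw [← List.append_assoc, List.getLast?_append]
      rw [← List.cons_append, List.getLast?_append] at h4
      simpa using h4

/-- vertices `z 1, ..., z n` -/
def fw (z : ℕ → G) (n : ℕ) : List G := (List.range n).map fun p => z (p + 1)

/-- vertices `z n, ..., z 1` -/
def bw (z : ℕ → G) (n : ℕ) : List G := (List.range n).map fun p => z (n - p)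

theorem length_fw (z : ℕ → G) (n : ℕ) : (fw z n).length = n := by simp [fw]
theorem length_bw (z : ℕ → G) (n : ℕ) : (bw z n).length = n := by simp [bw]

theorem mem_fw (z : ℕ → G) (n p : ℕ) (h1 : 1 ≤ p) (h2 : p ≤ n) : z p ∈ fw z n :=
  List.mem_map.2 ⟨p - 1, List.mem_range.2 (by omega), by rw [Nat.sub_add_cancel h1]⟩

theorem mem_bw (z : ℕ → G) (n p : ℕ) (h1 : 1 ≤ p) (h2 : p ≤ n) : z p ∈ bw z n :=
  List.mem_map.2 ⟨n - p, List.mem_range.2 (by omega), by congr 1; omega⟩

theorem path_fw0 (z : ℕ → G) (n : ℕ) (h : ∀ p < n, (z p)⁻¹ * z (p + 1) ∈ L) :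
    Path L (z 0) (z n) (fw z n) := by
  induction n with
  | zero =>
    refine ⟨?_, by simp [fw]⟩
    unfold steps fw
    simp
  | succ n ih =>
    have e : fw z (n + 1) = fw z n ++ [z (n + 1)] := by
      unfold fw
      rw [List.range_succ, List.map_append]
      rfl
    rw [e]
    exact (ih fun p hp => h p (by omega)).append (Path.single (h n (by omega)))

theorem path_fw (z : ℕ → G) (n : ℕ) (h : ∀ p < n + 1, (z p)⁻¹ * z (p + 1) ∈ L) :
    Path L (z 0) (z (n + 1)) (fw z n ++ [z (n + 1)]) :=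
  (path_fw0 z n fun p hp => h p (by omega)).append (Path.single (h n (by omega)))

theorem path_bw (z : ℕ → G) (n : ℕ) (h : ∀ p < n + 1, (z p)⁻¹ * z (p + 1) ∈ L)
    (hL : ∀ s ∈ L, s⁻¹ ∈ L) : Path L (z (n + 1)) (z 0) (bw z n ++ [z 0]) := by
  have h1 := path_fw0 (L := L) (fun p => z (n + 1 - p)) (n + 1) (by
    intro p hp
    have h2 := hL _ (h (n - p) (by omega))
    rw [mul_inv_rev, inv_inv] at h2
    have e1 : n + 1 - p = n - p + 1 := by omega
    have e2 : n + 1 - (p + 1) = n - p := by omega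
    simp only [e1, e2]
    exact h2)
  have e : fw (fun p => z (n + 1 - p)) (n + 1) = bw z n ++ [z 0] := by
    unfold fw bw
    rw [List.range_succ, List.map_append]
    congr 1
    · refine List.map_congr_left fun p _ => ?_
      simp only
      congr 1
      omega
    · simp
  rw [e] at h1
  simpa using h1

end path

/-- A list of the right length containing all elements of a finite set has no repetitions. -/
theorem nodup_of {α : Type u} [DecidableEq α] (l : List α) (S : Finset α)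
    (h1 : ∀ v ∈ S, v ∈ l) (h2 : l.length = S.card) : l.Nodup ∧ ∀ v, v ∈ l ↔ v ∈ S := by
  have h3 : S ⊆ l.toFinset := fun v hv => List.mem_toFinset.2 (h1 v hv)
  have h4 := Finset.card_le_card h3
  have h5 := List.toFinset_card_le l
  have h6 : S = l.toFinset := Finset.eq_of_subset_of_card_le h3 (by omega)
  refine ⟨?_, fun v => by rw [h6, List.mem_toFinset]⟩
  have h7 : l.toFinset.card = l.length := by omega
  exact (Multiset.toFinset_card_eq_card_iff_nodup (m := (l : Multiset α))).1 h7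

section lists

variable {G : Type u} [Group G] [DecidableEq G] {L : Finset G} (W : ℕ → G) (z : ℕ → ℕ → G) (n : ℕ)

/-- forward part of the non-absorbing path -/
def Fl : ℕ → List G
  | 0 => [W 2]
  | j + 1 => Fl j ++ (fw (z (2 * j)) n ++ [W (4 * j + 5)]) ++ [W (4 * j + 6)]

/-- backward part of the non-absorbing path -/
def Rl : ℕ → List G
  | 0 => [W 3]
  | j + 1 => [W (4 * j + 7)] ++ (bw (z (2 * j + 1)) n ++ [W (4 * j + 4)]) ++ Rl j

/-- main part of the absorbing path -/
def Ql : ℕ → List G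
  | 0 => [W 3]
  | j + 1 => [W (2 * j + 5)] ++ (bw (z j) n ++ [W (2 * j + 2)]) ++ Ql j

theorem length_Fl (j : ℕ) : (Fl W z n j).length = 1 + j * (n + 2) := by
  induction j with
  | zero => simp [Fl]
  | succ j ih => simp [Fl, ih, length_fw]; ring

theorem length_Rl (j : ℕ) : (Rl W z n j).length = 1 + j * (n + 2) := by
  induction j with
  | zero => simp [Rl]
  | succ j ih => simp [Rl, ih, length_bw]; ring

theorem length_Ql (j : ℕ) : (Ql W z n j).length = 1 + j * (n + 2) := by
  induction j with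
  | zero => simp [Ql]
  | succ j ih => simp [Ql, ih, length_bw]; ring

theorem mem_Fl (j : ℕ) : (∀ i ≤ j, W (4 * i + 1) ∈ W 1 :: Fl W z n j ∧
    W (4 * i + 2) ∈ W 1 :: Fl W z n j) ∧
    ∀ i < j, ∀ p, 1 ≤ p → p ≤ n → z (2 * i) p ∈ W 1 :: Fl W z n j := by
  induction j with
  | zero =>
    refine ⟨fun i hi => ?_, fun i hi => by omega⟩
    obtain rfl : i = 0 := by omega
    simp [Fl]
  | succ j ih =>
    have hsub : ∀ v, v ∈ W 1 :: Fl W z n j → v ∈ W 1 :: Fl W z n (j + 1) := by
      intro v hv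
      simp only [Fl, List.mem_cons, List.mem_append] at hv ⊢
      tauto
    refine ⟨fun i hi => ?_, fun i hi p hp1 hp2 => ?_⟩
    · rcases Nat.lt_or_ge j i with h | h
      · obtain rfl : i = j + 1 := by omega
        have e1 : 4 * (j + 1) + 1 = 4 * j + 5 := by ring
        have e2 : 4 * (j + 1) + 2 = 4 * j + 6 := by ring
        rw [e1, e2]
        simp [Fl]
      · exact ⟨hsub _ (ih.1 i h).1, hsub _ (ih.1 i h).2⟩
    · rcases Nat.lt_or_ge i j with h | h
      · exact hsub _ (ih.2 i h p hp1 hp2)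
      · obtain rfl : i = j := by omega
        have := mem_fw (z (2 * i)) n p hp1 hp2
        simp only [Fl, List.mem_cons, List.mem_append]
        tauto

theorem mem_Rl (j : ℕ) : (∀ i ≤ j, W (4 * i + 3) ∈ W (4 * j + 4) :: Rl W z n j ∧
    W (4 * i + 4) ∈ W (4 * j + 4) :: Rl W z n j) ∧
    ∀ i < j, ∀ p, 1 ≤ p → p ≤ n → z (2 * i + 1) p ∈ W (4 * j + 4) :: Rl W z n j := by
  induction j with
  | zero =>
    refine ⟨fun i hi => ?_, fun i hi => by omega⟩
    obtain rfl : i = 0 := by omega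
    simp [Rl]
  | succ j ih =>
    have hsub : ∀ v, v ∈ W (4 * j + 4) :: Rl W z n j →
        v ∈ W (4 * (j + 1) + 4) :: Rl W z n (j + 1) := by
      intro v hv
      simp only [Rl, List.mem_cons, List.mem_append] at hv ⊢
      tauto
    refine ⟨fun i hi => ?_, fun i hi p hp1 hp2 => ?_⟩
    · rcases Nat.lt_or_ge j i with h | h
      · obtain rfl : i = j + 1 := by omega
        have e1 : 4 * (j + 1) + 3 = 4 * j + 7 := by ring
        rw [e1]
        simp [Rl]
      · exact ⟨hsub _ (ih.1 i h).1, hsub _ (ih.1 i h).2⟩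
    · rcases Nat.lt_or_ge i j with h | h
      · exact hsub _ (ih.2 i h p hp1 hp2)
      · obtain rfl : i = j := by omega
        have := mem_bw (z (2 * i + 1)) n p hp1 hp2
        simp only [Rl, List.mem_cons, List.mem_append]
        tauto

theorem mem_Ql (j : ℕ) : (∀ i ≤ j, W (2 * i + 2) ∈ W (2 * j + 2) :: Ql W z n j ∧
    W (2 * i + 3) ∈ W (2 * j + 2) :: Ql W z n j) ∧
    ∀ i < j, ∀ p, 1 ≤ p → p ≤ n → z i p ∈ W (2 * j + 2) :: Ql W z n j := by
  induction j with
  | zero =>
    refine ⟨fun i hi => ?_, fun i hi => by omega⟩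
    obtain rfl : i = 0 := by omega
    simp [Ql]
  | succ j ih =>
    have hsub : ∀ v, v ∈ W (2 * j + 2) :: Ql W z n j →
        v ∈ W (2 * (j + 1) + 2) :: Ql W z n (j + 1) := by
      intro v hv
      simp only [Ql, List.mem_cons, List.mem_append] at hv ⊢
      tauto
    refine ⟨fun i hi => ?_, fun i hi p hp1 hp2 => ?_⟩
    · rcases Nat.lt_or_ge j i with h | h
      · obtain rfl : i = j + 1 := by omega
        have e1 : 2 * (j + 1) + 3 = 2 * j + 5 := by ring
        rw [e1]
        simp [Ql]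
      · exact ⟨hsub _ (ih.1 i h).1, hsub _ (ih.1 i h).2⟩
    · rcases Nat.lt_or_ge i j with h | h
      · exact hsub _ (ih.2 i h p hp1 hp2)
      · obtain rfl : i = j := by omega
        have := mem_bw (z i) n p hp1 hp2
        simp only [Ql, List.mem_cons, List.mem_append]
        tauto

variable {W z n}

/-- the hypotheses on the vertices: `H` is the number of rungs, `Mx` the last index of the cycle -/
structure Dat (L : Finset G) (W : ℕ → G) (z : ℕ → ℕ → G) (n H Mx : ℕ) : Prop where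
  inv : ∀ s ∈ L, s⁻¹ ∈ L
  cyc : ∀ i < Mx, (W i)⁻¹ * W (i + 1) ∈ L
  z0 : ∀ i < H, z i 0 = W (2 * i + 2)
  z1 : ∀ i < H, z i (n + 1) = W (2 * i + 5)
  zs : ∀ i < H, ∀ p < n + 1, (z i p)⁻¹ * z i (p + 1) ∈ L

variable {H Mx : ℕ}

theorem Dat.back (D : Dat L W z n H Mx) {i : ℕ} (h : i < Mx) : (W (i + 1))⁻¹ * W i ∈ L := by
  have := D.inv _ (D.cyc i h)
  rwa [mul_inv_rev, inv_inv] at this

theorem Dat.up (D : Dat L W z n H Mx) {i : ℕ} (h : i < H) :
    Path L (W (2 * i + 2)) (W (2 * i + 5)) (fw (z i) n ++ [W (2 * i + 5)]) := by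
  have := path_fw (L := L) (z i) n (D.zs i h)
  rwa [D.z0 i h, D.z1 i h] at this

theorem Dat.down (D : Dat L W z n H Mx) {i : ℕ} (h : i < H) :
    Path L (W (2 * i + 5)) (W (2 * i + 2)) (bw (z i) n ++ [W (2 * i + 2)]) := by
  have := path_bw (L := L) (z i) n (D.zs i h) D.inv
  rwa [D.z0 i h, D.z1 i h] at this

theorem Dat.pathF (D : Dat L W z n H Mx) (j : ℕ) (h : 2 * j ≤ H + 1) (h' : 4 * j + 2 ≤ Mx) :
    Path L (W 1) (W (4 * j + 2)) (Fl W z n j) := by
  induction j with
  | zero => exact Path.single (D.cyc 1 (by omega))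
  | succ j ih =>
    have h1 := ih (by omega) (by omega)
    have h2 := D.up (i := 2 * j) (by omega)
    have e1 : 2 * (2 * j) + 2 = 4 * j + 2 := by ring
    have e2 : 2 * (2 * j) + 5 = 4 * j + 5 := by ring
    rw [e1, e2] at h2
    have h3 : Path L (W (4 * j + 5)) (W (4 * j + 6)) [W (4 * j + 6)] :=
      Path.single (D.cyc (4 * j + 5) (by omega))
    exact (h1.append h2).append h3

theorem Dat.pathR (D : Dat L W z n H Mx) (j : ℕ) (h : 2 * j ≤ H) (h' : 4 * j + 4 ≤ Mx) :
    Path L (W (4 * j + 4)) (W 3) (Rl W z n j) := by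
  induction j with
  | zero => exact Path.single (D.back (i := 3) (by omega))
  | succ j ih =>
    have h1 := ih (by omega) (by omega)
    have h2 := D.down (i := 2 * j + 1) (by omega)
    have e1 : 2 * (2 * j + 1) + 2 = 4 * j + 4 := by ring
    have e2 : 2 * (2 * j + 1) + 5 = 4 * j + 7 := by ring
    rw [e1, e2] at h2
    have h3 : Path L (W (4 * (j + 1) + 4)) (W (4 * j + 7)) [W (4 * j + 7)] :=
      Path.single (D.back (i := 4 * j + 7) (by omega))
    exact (h3.append h2).append h1

theorem Dat.pathQ (D : Dat L W z n H Mx) (j : ℕ) (h : j ≤ H) (h' : 2 * j + 3 ≤ Mx) :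
    Path L (W (2 * j + 2)) (W 3) (Ql W z n j) := by
  induction j with
  | zero => exact Path.single (D.cyc 2 (by omega))
  | succ j ih =>
    have h1 := ih (by omega) (by omega)
    have h2 := D.down (i := j) (by omega)
    have h3 : Path L (W (2 * (j + 1) + 2)) (W (2 * j + 5)) [W (2 * j + 5)] :=
      Path.single (D.cyc (2 * j + 4) (by omega))
    exact (h3.append h2).append h1

end lists

theorem Lt_inv {G : Type u} [Group G] [Fintype G] [DecidableEq G] (c : Ctx G) (τ : Bool) :
    ∀ s ∈ Lt c.B c.C τ, s⁻¹ ∈ Lt c.B c.C τ := by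
  intro s hs
  unfold Lt at hs ⊢
  split_ifs at hs ⊢
  · rcases Finset.mem_union.1 hs with h | h
    · exact Finset.mem_union_left _ (c.hB.inv s h)
    · exact Finset.mem_union_right _ (c.hC.inv s h)
  · exact c.hB.inv s hs

theorem k_form {G : Type u} [Group G] [Fintype G] [DecidableEq G] (c : Ctx G) :
    ∃ t, c.k = 2 * (t + 1) := by
  obtain ⟨k', hk'⟩ := c.hdiv
  have h1 := c.hk1
  have h2 : c.k = 2 * (16 * (c.r0 + 1) * k') := by rw [hk']; ring
  have h3 : 1 ≤ 16 * (c.r0 + 1) * k' := by omega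
  exact ⟨16 * (c.r0 + 1) * k' - 1, by omega⟩

/-- Module ABS. -/
theorem abs (hA : ADJ_S.{u}) : ABS_S.{u} := by
  intro G _ _ _ c τ e γ he hΓ hinj hout
  obtain ⟨t, ht⟩ := k_form c
  have hL := Lt_inv c τ
  have hlen : c.len true = 6 * c.k + 1 := by simp [Ctx.len]
  have hlen' : c.len false = 6 * c.k := by simp [Ctx.len]
  have hΓ1 : c.WL τ true e.2 e.1 γ.1 ≠ 0 := left_ne_zero_of_mul (left_ne_zero_of_mul hΓ)
  have hΓ2 : ∀ i : Fin (3 * c.k - 2),
      c.WL τ true (c.cy γ (2 * i + 2)) (c.cy γ (2 * i + 5)) (γ.2.1 i) ≠ 0 := fun i =>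
    Finset.prod_ne_zero_iff.1 (right_ne_zero_of_mul (left_ne_zero_of_mul hΓ)) i (Finset.mem_univ i)
  have hΓ3 : c.WL τ false (c.cy γ (6 * c.k - 2)) (c.cy γ (6 * c.k)) γ.2.2 ≠ 0 :=
    right_ne_zero_of_mul hΓ
  -- the functions
  set W : ℕ → G := c.cy γ with hW
  let z : ℕ → ℕ → G := fun i p => if h : i < 3 * c.k - 2 ∧ p < c.len true + 1 then
    γ.2.1 ⟨i, h.1⟩ ⟨p, h.2⟩ else 1
  let zl : ℕ → G := fun p => if h : p < c.len false + 1 then γ.2.2 ⟨p, h⟩ else 1
  have hWv : ∀ i (h : i < c.len true + 1), W i = γ.1 ⟨i, h⟩ := fun i h => dif_pos h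
  have hzv : ∀ i p (h : i < 3 * c.k - 2) (h' : p < c.len true + 1),
      z i p = γ.2.1 ⟨i, h⟩ ⟨p, h'⟩ := fun i p h h' => dif_pos ⟨h, h'⟩
  have hzlv : ∀ p (h : p < c.len false + 1), zl p = γ.2.2 ⟨p, h⟩ := fun p h => dif_pos h
  obtain ⟨a1, a2, a3, -⟩ := hA G c τ true _ _ _ hΓ1
  obtain ⟨b1, b2, b3, -⟩ := hA G c τ false _ _ _ hΓ3
  have hW0 : W 0 = e.2 := by rw [hWv 0 (by omega)]; exact a1
  have hW1 : W (6 * c.k + 1) = e.1 := by
    rw [hWv (6 * c.k + 1) (by omega), ← a2]
    congr 1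
  have D : Dat (Lt c.B c.C τ) W z (6 * c.k) (3 * c.k - 2) (6 * c.k + 1) := by
    refine ⟨hL, ?_, ?_, ?_, ?_⟩
    · intro i hi
      rw [hWv i (by omega), hWv (i + 1) (by omega)]
      exact a3 ⟨i, by omega⟩
    · intro i hi
      rw [hzv i 0 hi (by omega)]
      exact (hA G c τ true _ _ _ (hΓ2 ⟨i, hi⟩)).1
    · intro i hi
      rw [hzv i _ hi (by omega)]
      refine Eq.trans ?_ (hA G c τ true _ _ _ (hΓ2 ⟨i, hi⟩)).2.1
      congr 1
    · intro i hi p hp
      rw [hzv i p hi (by omega), hzv i (p + 1) hi (by omega)]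
      exact (hA G c τ true _ _ _ (hΓ2 ⟨i, hi⟩)).2.2.1 ⟨p, by omega⟩
  have hl0 : zl 0 = W (6 * c.k - 2) := by rw [hzlv 0 (by omega)]; exact b1
  have hl1 : zl (6 * c.k - 1 + 1) = W (6 * c.k) := by
    have e0 : 6 * c.k - 1 + 1 = c.len false := by omega
    rw [e0, hzlv _ (by omega), ← b2]
    rfl
  have hls : ∀ p < 6 * c.k - 1 + 1, (zl p)⁻¹ * zl (p + 1) ∈ Lt c.B c.C τ := by
    intro p hp
    rw [hzlv p (by omega), hzlv (p + 1) (by omega)]
    exact b3 ⟨p, by omega⟩
  have P1 := path_fw (L := Lt c.B c.C τ) zl (6 * c.k - 1) hls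
  have P2 := path_bw (L := Lt c.B c.C τ) zl (6 * c.k - 1) hls hL
  rw [hl0, hl1] at P1 P2
  -- the paths
  have PF := D.pathF (3 * t + 2) (by omega) (by omega)
  have PR := D.pathR (3 * t + 2) (by omega) (by omega)
  have PQ := D.pathQ (3 * c.k - 2) le_rfl (by omega)
  have e1 : 4 * (3 * t + 2) + 2 = 6 * c.k - 2 := by omega
  have e2 : 4 * (3 * t + 2) + 4 = 6 * c.k := by omega
  have e3 : 2 * (3 * c.k - 2) + 2 = 6 * c.k - 2 := by omega
  rw [e1] at PF
  rw [e2] at PR
  rw [e3] at PQ
  have Pn := (PF.append P1).append PR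
  have s1 : Path (Lt c.B c.C τ) (W 1) e.2 [e.2] := by
    rw [← hW0]; exact Path.single (D.back (i := 0) (by omega))
  have s2 : Path (Lt c.B c.C τ) e.2 e.1 [e.1] := by
    refine Path.single ?_
    have := hL _ he
    rwa [mul_inv_rev, inv_inv] at this
  have s3 : Path (Lt c.B c.C τ) e.1 (W (6 * c.k)) [W (6 * c.k)] := by
    rw [← hW1]; exact Path.single (D.back (i := 6 * c.k) (by omega))
  have Pa := (((s1.append s2).append s3).append P2).append PQ
  -- vertices
  have hvl : ∀ i : Fin (6 * c.k), c.vx γ (Sum.inl i) = W (i + 1) := by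
    intro i
    rw [hWv (i + 1) (by have := i.2; omega)]
    rfl
  have hvr : ∀ (i : Fin (3 * c.k - 2)) (p : Fin (6 * c.k)),
      c.vx γ (Sum.inr (Sum.inl (i, p))) = z i (p + 1) := by
    intro i p
    rw [hzv i (p + 1) i.2 (by have := p.2; omega)]
    rfl
  have hvs : ∀ p : Fin (6 * c.k - 1), c.vx γ (Sum.inr (Sum.inr p)) = zl (p + 1) := by
    intro p
    rw [hzlv (p + 1) (by have := p.2; omega)]
    rfl
  have hcard : (Finset.univ.image (c.vx γ)).card =
      6 * c.k + ((3 * c.k - 2) * (6 * c.k) + (6 * c.k - 1)) := by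
    rw [Finset.card_image_of_injective _ hinj, Finset.card_univ]
    simp [Fintype.card_sum, Fintype.card_prod, Fintype.card_fin]
  have k1 : 3 * c.k - 2 = 6 * t + 4 := by omega
  have k2 : 6 * c.k - 1 = 12 * t + 11 := by omega
  have k3 : 6 * c.k = 12 * t + 12 := by omega
  set ln := W 1 :: (Fl W z (6 * c.k) (3 * t + 2) ++ (fw zl (6 * c.k - 1) ++ [W (6 * c.k)]) ++
    Rl W z (6 * c.k) (3 * t + 2)) with hln
  set la := W 1 :: ([e.2] ++ [e.1] ++ [W (6 * c.k)] ++ (bw zl (6 * c.k - 1) ++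
    [W (6 * c.k - 2)]) ++ Ql W z (6 * c.k) (3 * c.k - 2)) with hla
  have N1 : ∀ v ∈ Finset.univ.image (c.vx γ), v ∈ ln := by
    intro v hv
    obtain ⟨p, -, rfl⟩ := Finset.mem_image.1 hv
    have hF : ∀ v, v ∈ W 1 :: Fl W z (6 * c.k) (3 * t + 2) → v ∈ ln := by
      intro v hv
      rcases List.mem_cons.1 hv with rfl | hv
      · exact List.mem_cons_self
      · exact List.mem_cons_of_mem _ (List.mem_append_left _ (List.mem_append_left _ hv))
    have hR : ∀ v, v ∈ W (4 * (3 * t + 2) + 4) :: Rl W z (6 * c.k) (3 * t + 2) → v ∈ ln := by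
      intro v hv
      rw [e2] at hv
      rcases List.mem_cons.1 hv with rfl | hv
      · exact List.mem_cons_of_mem _ (List.mem_append_left _ (List.mem_append_right _
          (List.mem_append_right _ (List.mem_singleton_self _))))
      · exact List.mem_cons_of_mem _ (List.mem_append_right _ hv)
    obtain ⟨m1, m2⟩ := mem_Fl W z (6 * c.k) (3 * t + 2)
    obtain ⟨m3, m4⟩ := mem_Rl W z (6 * c.k) (3 * t + 2)
    rcases p with i | ⟨i, p⟩ | p
    · rw [hvl]
      have hi := i.2
      obtain ⟨a, ha⟩ : ∃ a, (i : ℕ) + 1 = 4 * a + 1 ∨ (i : ℕ) + 1 = 4 * a + 2 ∨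
          (i : ℕ) + 1 = 4 * a + 3 ∨ (i : ℕ) + 1 = 4 * a + 4 := ⟨i / 4, by omega⟩
      rcases ha with h | h | h | h <;> rw [h]
      · exact hF _ (m1 a (by omega)).1
      · exact hF _ (m1 a (by omega)).2
      · exact hR _ (m3 a (by omega)).1
      · exact hR _ (m3 a (by omega)).2
    · rw [hvr]
      have hi := i.2
      have hp := p.2
      rcases Nat.even_or_odd' (i : ℕ) with ⟨a, ha | ha⟩ <;> rw [ha]
      · exact hF _ (m2 a (by omega) _ (by omega) (by omega))
      · exact hR _ (m4 a (by omega) _ (by omega) (by omega))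
    · rw [hvs]
      have hp := p.2
      have := mem_fw zl (6 * c.k - 1) (p + 1) (by omega) (by omega)
      exact List.mem_cons_of_mem _ (List.mem_append_left _ (List.mem_append_right _
        (List.mem_append_left _ this)))
  have N2 : ∀ v ∈ insert e.1 (insert e.2 (Finset.univ.image (c.vx γ))), v ∈ la := by
    intro v hv
    rcases Finset.mem_insert.1 hv with rfl | hv
    · simp [hla]
    rcases Finset.mem_insert.1 hv with rfl | hv
    · simp [hla]
    obtain ⟨p, -, rfl⟩ := Finset.mem_image.1 hv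
    obtain ⟨m1, m2⟩ := mem_Ql W z (6 * c.k) (3 * c.k - 2)
    have hQ : ∀ v, v ∈ W (2 * (3 * c.k - 2) + 2) :: Ql W z (6 * c.k) (3 * c.k - 2) → v ∈ la := by
      intro v hv
      rw [e3] at hv
      rcases List.mem_cons.1 hv with rfl | hv
      · exact List.mem_cons_of_mem _ (List.mem_append_left _ (List.mem_append_right _
          (List.mem_append_right _ (List.mem_singleton_self _))))
      · exact List.mem_cons_of_mem _ (List.mem_append_right _ hv)
    rcases p with i | ⟨i, p⟩ | p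
    · rw [hvl]
      have hi := i.2
      rcases Nat.eq_zero_or_pos (i : ℕ) with h0 | h0
      · rw [h0]; simp [hla]
      rcases Nat.lt_or_ge ((i : ℕ) + 1) (6 * c.k) with h1 | h1
      · obtain ⟨a, ha⟩ : ∃ a, (i : ℕ) + 1 = 2 * a + 2 ∨ (i : ℕ) + 1 = 2 * a + 3 :=
          ⟨((i : ℕ) - 1) / 2, by omega⟩
        rcases ha with h | h <;> rw [h]
        · exact hQ _ (m1 a (by omega)).1
        · exact hQ _ (m1 a (by omega)).2
      · have h2 : (i : ℕ) + 1 = 6 * c.k := by omega
        rw [h2]; simp [hla]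
    · rw [hvr]
      have hi := i.2
      have hp := p.2
      exact hQ _ (m2 i (by omega) _ (by omega) (by omega))
    · rw [hvs]
      have hp := p.2
      have := mem_bw zl (6 * c.k - 1) (p + 1) (by omega) (by omega)
      exact List.mem_cons_of_mem _ (List.mem_append_left _ (List.mem_append_right _
        (List.mem_append_left _ this)))
  have hne12 : e.1 ≠ e.2 := by
    intro h
    rw [h, inv_mul_cancel] at he
    unfold Lt at he
    split_ifs at he
    · rcases Finset.mem_union.1 he with h | h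
      · exact c.hB1 h
      · exact c.hC1 h
    · exact c.hB1 he
  have hn2 : e.2 ∉ Finset.univ.image (c.vx γ) := by
    intro h
    obtain ⟨p, -, hp⟩ := Finset.mem_image.1 h
    exact (hout p).2 hp
  have hn1 : e.1 ∉ insert e.2 (Finset.univ.image (c.vx γ)) := by
    intro h
    rcases Finset.mem_insert.1 h with h | h
    · exact hne12 h
    · obtain ⟨p, -, hp⟩ := Finset.mem_image.1 h
      exact (hout p).1 hp
  have L1 : ln.length = (Finset.univ.image (c.vx γ)).card := by
    rw [hcard, hln]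
    simp only [List.length_cons, List.length_append, length_Fl, length_Rl, length_fw,
      List.length_nil]
    rw [k1, k2, k3]
    ring
  have L2 : la.length = (insert e.1 (insert e.2 (Finset.univ.image (c.vx γ)))).card := by
    rw [Finset.card_insert_of_notMem hn1, Finset.card_insert_of_notMem hn2, hcard, hla]
    simp only [List.length_cons, List.length_append, length_Ql, length_bw, List.length_nil]
    rw [k1, k2, k3]
    ring
  obtain ⟨nd1, me1⟩ := nodup_of ln _ N1 L1
  obtain ⟨nd2, me2⟩ := nodup_of la _ N2 L2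
  have hw1 : W 1 = c.vx γ (Sum.inl ⟨0, by omega⟩) := (hvl ⟨0, by omega⟩).symm
  have hw3 : W 3 = c.vx γ (Sum.inl ⟨2, by omega⟩) := (hvl ⟨2, by omega⟩).symm
  refine ⟨la, ln, ?_, ?_, ?_, ?_, nd2, me2, Pa.1, rfl, Pa.2, nd1, ?_, Pn.1, rfl, Pn.2⟩
  · rw [hw1, hw3]
    intro h
    have := hinj h
    simp at this
  · exact Finset.mem_insert_self _ _
  · exact Finset.mem_insert_of_mem (Finset.mem_insert_self _ _)
  · rw [hw1, hw3]
    exact ⟨(hout _).1, (hout _).2, (hout _).1, (hout _).2⟩
  · intro v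
    rw [me1]
    constructor
    · intro hv
      refine ⟨Finset.mem_insert_of_mem (Finset.mem_insert_of_mem hv), ?_, ?_⟩
      · rintro rfl; exact hn1 (Finset.mem_insert_of_mem hv)
      · rintro rfl; exact hn2 hv
    · rintro ⟨hv, h1, h2⟩
      rcases Finset.mem_insert.1 hv with h | hv
      · exact absurd h h1
      rcases Finset.mem_insert.1 hv with h | hv
      · exact absurd h h2
      exact hv

end Pool.Agent.Lib.MP_688fd0_co.TE.H39
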