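import Pool.Agent.Lib.MP_688fd0_co.TE.Iface4

/-!
# Theorem E, module GLAW: the law of gadget configurations
-/

set_option linter.unusedSectionVars false

namespace Pool.Agent.Lib.MP_688fd0_co.TE.H39

open Pool.Agent.Lib.MP_688fd0_co.TE

universe u

/-! ### Semidirect laws -/

section sd

variable {A B C : Type*} [Fintype A] [Fintype B] [Fintype C] (μ : A → ℝ) (ν : A → B → ℝ)
  (l : A → C → ℝ)

/-- the law of a triple where the second and third entries are independent given the first -/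
def SD : A × B × C → ℝ := fun γ => μ γ.1 * ν γ.1 γ.2.1 * l γ.1 γ.2.2

variable {μ ν l} (hμ : IsPr μ) (hν : ∀ a, μ a ≠ 0 → IsPr (ν a)) (hl : ∀ a, μ a ≠ 0 → IsPr (l a))

include hμ hν hl in
theorem SD_isPr : IsPr (SD μ ν l) := by
  refine ⟨?_, ?_⟩
  · rintro ⟨a, b, d⟩
    change 0 ≤ μ a * ν a b * l a d
    by_cases h : μ a = 0
    · rw [h]; simp
    · exact mul_nonneg (mul_nonneg (hμ.nn a) ((hν a h).nn b)) ((hl a h).nn d)
  · rw [Fintype.sum_prod_type]
    rw [← hμ.one]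
    refine Finset.sum_congr rfl fun a _ => ?_
    rw [Fintype.sum_prod_type]
    change ∑ b, ∑ d, μ a * ν a b * l a d = μ a
    by_cases h : μ a = 0
    · simp [h]
    · simp_rw [← Finset.mul_sum, (hl a h).one, mul_one, ← Finset.mul_sum, (hν a h).one, mul_one]

include hμ in
theorem SD_le (E : A × B × C → Prop) (f : A → ℝ)
    (h : ∀ a, μ a ≠ 0 → ∑ b, ∑ d, ν a b * (l a d * ind (E (a, b, d))) ≤ f a) :
    Pr (SD μ ν l) E ≤ ∑ a, μ a * f a := by
  unfold Pr
  rw [Fintype.sum_prod_type]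
  refine Finset.sum_le_sum fun a _ => ?_
  rw [Fintype.sum_prod_type]
  have e : ∑ b, ∑ d, SD μ ν l (a, b, d) * ind (E (a, b, d)) =
      μ a * ∑ b, ∑ d, ν a b * (l a d * ind (E (a, b, d))) := by
    rw [Finset.mul_sum]
    refine Finset.sum_congr rfl fun b _ => ?_
    rw [Finset.mul_sum]
    refine Finset.sum_congr rfl fun d _ => ?_
    simp only [SD]
    ring
  rw [e]
  by_cases h0 : μ a = 0
  · simp [h0]
  · exact mul_le_mul_of_nonneg_left (h a h0) (hμ.nn a)

include hμ hν hl in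
/-- events of the third coordinate given the others -/
theorem SD_le3 (E : A → B → C → Prop) (f : A → ℝ)
    (h : ∀ a, μ a ≠ 0 → ∀ b, Pr (l a) (E a b) ≤ f a) :
    Pr (SD μ ν l) (fun γ => E γ.1 γ.2.1 γ.2.2) ≤ ∑ a, μ a * f a := by
  refine SD_le hμ _ f fun a ha => ?_
  have : ∀ b, ∑ d, ν a b * (l a d * ind (E a b d)) ≤ ν a b * f a := by
    intro b
    rw [← Finset.mul_sum]
    exact mul_le_mul_of_nonneg_left (h a ha b) ((hν a ha).nn b)
  refine (Finset.sum_le_sum fun b _ => this b).trans ?_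
  rw [← Finset.sum_mul, (hν a ha).one, one_mul]

include hμ hν hl in
/-- events of the first two coordinates -/
theorem SD_le2 (E : A → B → Prop) (f : A → ℝ) (h : ∀ a, μ a ≠ 0 → Pr (ν a) (E a) ≤ f a) :
    Pr (SD μ ν l) (fun γ => E γ.1 γ.2.1) ≤ ∑ a, μ a * f a := by
  refine SD_le hμ _ f fun a ha => ?_
  have : ∀ b, ∑ d, ν a b * (l a d * ind (E a b)) = ν a b * ind (E a b) := by
    intro b
    rw [← Finset.mul_sum, ← Finset.sum_mul, (hl a ha).one, one_mul]
  change ∑ b, ∑ d, ν a b * (l a d * ind (E a b)) ≤ f a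
  rw [Finset.sum_congr rfl fun b _ => this b]
  exact h a ha

include hμ hν hl in
/-- events of the first coordinate -/
theorem SD_le1 (E : A → Prop) : Pr (SD μ ν l) (fun γ => E γ.1) ≤ Pr μ E := by
  refine SD_le2 hμ hν hl (fun a _ => E a) (fun a => ind (E a)) fun a ha => ?_
  unfold Pr
  rw [← Finset.sum_mul, (hν a ha).one, one_mul]

end sd

theorem sum_const_mul {A : Type*} [Fintype A] {μ : A → ℝ} (hμ : IsPr μ) (p : ℝ) :
    ∑ a, μ a * p = p := by
  rw [← Finset.sum_mul, hμ.one, one_mul]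

/-- expectation of a function of a coordinate -/
theorem sum_coord {A H : Type*} [Fintype A] [Fintype H] [DecidableEq H] (μ : A → ℝ) (X : A → H)
    (F : H → ℝ) : ∑ a, μ a * F (X a) = ∑ h, F h * Pr μ (fun a => X a = h) := by
  unfold Pr
  simp_rw [Finset.mul_sum]
  rw [Finset.sum_comm]
  refine Finset.sum_congr rfl fun a _ => ?_
  rw [Finset.sum_eq_single (X a)]
  · rw [ind_of rfl]; ring
  · intro b _ hb
    rw [ind_not fun h => hb h.symm]; ring
  · intro h; exact absurd (Finset.mem_univ _) h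

section main

variable {G : Type u} [Group G] [Fintype G] [DecidableEq G]

/-- vertices of the cycle -/
def cz (c : Ctx G) (z : Fin (c.len true + 1) → G) (i : ℕ) : G :=
  if h : i < c.len true + 1 then z ⟨i, h⟩ else 1

theorem len_t (c : Ctx G) : c.len true = 6 * c.k + 1 := by simp [Ctx.len]
theorem len_f (c : Ctx G) : c.len false = 6 * c.k := by simp [Ctx.len]

theorem Γ_eq (c : Ctx G) (τ : Bool) (e : G × G) : c.Γ τ e = SD (c.WL τ true e.2 e.1)
    (fun z => piW (fun i : Fin (3 * c.k - 2) =>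
      c.WL τ true (cz c z (2 * i + 2)) (cz c z (2 * i + 5))))
    (fun z => c.WL τ false (cz c z (6 * c.k - 2)) (cz c z (6 * c.k))) := rfl

theorem Lt_inv' (c : Ctx G) (τ : Bool) : ∀ s ∈ Lt c.B c.C τ, s⁻¹ ∈ Lt c.B c.C τ := by
  intro s hs
  unfold Lt at hs ⊢
  split_ifs at hs ⊢
  · rcases Finset.mem_union.1 hs with h | h
    · exact Finset.mem_union_left _ (c.hB.inv s h)
    · exact Finset.mem_union_right _ (c.hC.inv s h)
  · exact c.hB.inv s hs

theorem adm_one (c : Ctx G) (τ : Bool) {e : G × G} (he : e.1⁻¹ * e.2 ∈ Lt c.B c.C τ) :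
    c.adm τ true 100 e.2 e.1 := by
  unfold Ctx.adm
  rw [if_pos rfl]
  refine ⟨1, by decide, by norm_num, [e.2⁻¹ * e.1], rfl, ?_, by simp⟩
  intro s hs
  rw [List.mem_singleton] at hs
  rw [hs]
  have := Lt_inv' c τ _ he
  rwa [mul_inv_rev, inv_inv] at this

variable (hA : ADJ_S.{u}) (c : Ctx G) (τ : Bool)

include hA in
theorem cyc_step {x y : G} {z : Fin (c.len true + 1) → G} (hz : c.WL τ true x y z ≠ 0) {i : ℕ}
    (hi : i < 6 * c.k + 1) : (cz c z i)⁻¹ * cz c z (i + 1) ∈ Lt c.B c.C τ := by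
  have hl := len_t c
  unfold cz
  rw [dif_pos (by omega), dif_pos (by omega)]
  exact (hA G c τ true _ _ _ hz).2.2.1 ⟨i, by omega⟩

include hA in
theorem adm_rung {x y : G} {z : Fin (c.len true + 1) → G} (hz : c.WL τ true x y z ≠ 0) {i : ℕ}
    (hi : i + 3 ≤ 6 * c.k + 1) : c.adm τ true 100 (cz c z i) (cz c z (i + 3)) := by
  have h1 := cyc_step hA c τ hz (i := i) (by omega)
  have h2 := cyc_step hA c τ hz (i := i + 1) (by omega)
  have h3 := cyc_step hA c τ hz (i := i + 2) (by omega)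
  unfold Ctx.adm
  rw [if_pos rfl]
  refine ⟨3, by decide, by norm_num, [(cz c z i)⁻¹ * cz c z (i + 1),
    (cz c z (i + 1))⁻¹ * cz c z (i + 2), (cz c z (i + 2))⁻¹ * cz c z (i + 3)], rfl, ?_, ?_⟩
  · intro s hs
    simp only [List.mem_cons, List.not_mem_nil, or_false] at hs
    rcases hs with rfl | rfl | rfl
    · exact h1
    · exact h2
    · exact h3
  · simp [List.prod_cons, mul_assoc]

include hA in
theorem adm_last {x y : G} {z : Fin (c.len true + 1) → G} (hz : c.WL τ true x y z ≠ 0) {i : ℕ}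
    (hi : i + 2 ≤ 6 * c.k + 1) : c.adm τ false 100 (cz c z i) (cz c z (i + 2)) := by
  have h1 := cyc_step hA c τ hz (i := i) (by omega)
  have h2 := cyc_step hA c τ hz (i := i + 1) (by omega)
  unfold Ctx.adm
  rw [if_neg (by simp)]
  refine ⟨2, by decide, by norm_num, [(cz c z i)⁻¹ * cz c z (i + 1),
    (cz c z (i + 1))⁻¹ * cz c z (i + 2)], rfl, ?_, ?_⟩
  · intro s hs
    simp only [List.mem_cons, List.not_mem_nil, or_false] at hs
    rcases hs with rfl | rfl
    · exact h1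
    · exact h2
  · simp [mul_assoc]

variable (hW : WLK_S.{u}) (hK : PKS_S.{u}) (hPi : PIPR_S.{0, u}) (hU : UPD_S.{0, u})
  (hNum : NUM_S.{u})

/-- vertices of rungs as positions: `k` is at least 1 -/
theorem hk_pos : 1 ≤ c.k := c.hk1

include hW hK in
/-- bounds for the marginals of a walk by the nearer end -/
theorem mar (par : Bool) (j : ℕ) (h1 : 1 ≤ j) (h2 : j < c.len par) :
    ∃ (N : Matrix G G ℝ) (sd : Bool), c.TK 1 N ∧ ∀ x y, c.adm τ par 100 x y → ∀ v,
      Pr (c.WL τ par x y) (fun z => z ⟨j, by omega⟩ = v) ≤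
        2 * c.X * N (if sd then y else x) v := by
  obtain ⟨-, -, -, -, -, -, -, -, -, -, -, k1, k2, -⟩ := hK G c
  rcases Nat.lt_or_ge j (4 * c.k + 1) with h | h
  · refine ⟨c.K τ par 0 j, false, k1 τ par j h1 h2.le, fun x y hxy v => ?_⟩
    exact (hW G c τ par x y hxy).2.2.2.1 j (by omega) v (by omega)
  · refine ⟨(c.K τ par j (c.len par - j)).transpose, true, k2 τ par j h2, fun x y hxy v => ?_⟩
    exact (hW G c τ par x y hxy).2.2.2.2.1 j (by omega) v (by omega)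

variable {e : G × G} (he : e.1⁻¹ * e.2 ∈ Lt c.B c.C τ)

include hA hW hPi in
theorem nu_pr {x y : G} {z : Fin (c.len true + 1) → G} (hz : c.WL τ true x y z ≠ 0) :
    (∀ i : Fin (3 * c.k - 2), IsPr (c.WL τ true (cz c z (2 * i + 2)) (cz c z (2 * i + 5)))) ∧
    IsPr (piW (fun i : Fin (3 * c.k - 2) =>
      c.WL τ true (cz c z (2 * i + 2)) (cz c z (2 * i + 5)))) ∧
    IsPr (c.WL τ false (cz c z (6 * c.k - 2)) (cz c z (6 * c.k))) := by
  have h1 : ∀ i : Fin (3 * c.k - 2),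
      IsPr (c.WL τ true (cz c z (2 * i + 2)) (cz c z (2 * i + 5))) := by
    intro i
    have hi := i.2
    exact (hW G c τ true _ _ (adm_rung hA c τ hz (i := 2 * i + 2) (by omega))).1
  refine ⟨h1, hPi.1 _ _ _ h1, ?_⟩
  have hk := c.hk1
  have h2 := adm_last hA c τ hz (i := 6 * c.k - 2) (by omega)
  have e1 : 6 * c.k - 2 + 2 = 6 * c.k := by omega
  rw [e1] at h2
  exact (hW G c τ false _ _ h2).1

include hA hW hPi he in
theorem Γ_isPr : IsPr (c.Γ τ e) := by
  rw [Γ_eq]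
  exact SD_isPr (hW G c τ true _ _ (adm_one c τ he)).1
    (fun z hz => (nu_pr hA c τ hW hPi hz).2.1) (fun z hz => (nu_pr hA c τ hW hPi hz).2.2)

include hA hW hPi hU he in
/-- a vertex of a rung against something independent of the rung -/
theorem rung_le (i : Fin (3 * c.k - 2)) (j : ℕ) (h1 : 1 ≤ j) (h2 : j < c.len true)
    (F : (Fin (c.len true + 1) → G) → (Fin (3 * c.k - 2) → Fin (c.len true + 1) → G) → G)
    (hF : ∀ z ρ a, F z (Function.update ρ i a) = F z ρ) :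
    Pr (c.Γ τ e) (fun γ => γ.2.1 i ⟨j, by omega⟩ = F γ.1 γ.2.1) ≤ 2 * c.X / c.b := by
  have hμ := (hW G c τ true _ _ (adm_one c τ he)).1
  rw [Γ_eq]
  refine (SD_le2 hμ (fun z hz => (nu_pr hA c τ hW hPi hz).2.1)
    (fun z hz => (nu_pr hA c τ hW hPi hz).2.2)
    (fun z ρ => ρ i ⟨j, by omega⟩ = F z ρ) (fun _ => 2 * c.X / c.b) ?_).trans
    (sum_const_mul hμ _).le
  intro z hz
  refine hU.2 _ _ _ (nu_pr hA c τ hW hPi hz).1 _ i _ fun ρ => ?_
  simp only [Function.update_self, hF]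
  have hi := i.2
  exact (hW G c τ true _ _ (adm_rung hA c τ hz (i := 2 * i + 2) (by omega))).2.2.2.2.2.1 j
    (by omega) (F z ρ) h1 h2

include hA hW hPi hU he in
/-- two vertices of the same rung -/
theorem rung_same (i : Fin (3 * c.k - 2)) (j j' : ℕ) (h1 : 1 ≤ j) (h2 : j < j')
    (h3 : j' < c.len true) :
    Pr (c.Γ τ e) (fun γ => γ.2.1 i ⟨j, by omega⟩ = γ.2.1 i ⟨j', by omega⟩) ≤ 2 * c.X / c.b := by
  have hμ := (hW G c τ true _ _ (adm_one c τ he)).1
  rw [Γ_eq]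
  refine (SD_le2 hμ (fun z hz => (nu_pr hA c τ hW hPi hz).2.1)
    (fun z hz => (nu_pr hA c τ hW hPi hz).2.2)
    (fun z ρ => ρ i ⟨j, by omega⟩ = ρ i ⟨j', by omega⟩) (fun _ => 2 * c.X / c.b) ?_).trans
    (sum_const_mul hμ _).le
  intro z hz
  refine hU.2 _ _ _ (nu_pr hA c τ hW hPi hz).1 _ i _ fun ρ => ?_
  simp only [Function.update_self]
  have hi := i.2
  exact (hW G c τ true _ _ (adm_rung hA c τ hz (i := 2 * i + 2) (by omega))).2.2.2.2.2.2 j j'
    (by omega) (by omega) h2 (by omega)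

include hA in
theorem adm_last' {x y : G} {z : Fin (c.len true + 1) → G} (hz : c.WL τ true x y z ≠ 0) :
    c.adm τ false 100 (cz c z (6 * c.k - 2)) (cz c z (6 * c.k)) := by
  have hk := c.hk1
  have h2 := adm_last hA c τ hz (i := 6 * c.k - 2) (by omega)
  have e1 : 6 * c.k - 2 + 2 = 6 * c.k := by omega
  rwa [e1] at h2

include hA hW hPi he in
/-- a vertex of the last rung against something independent of it -/
theorem last_le (j : ℕ) (h1 : 1 ≤ j) (h2 : j < c.len false)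
    (F : (Fin (c.len true + 1) → G) → (Fin (3 * c.k - 2) → Fin (c.len true + 1) → G) → G) :
    Pr (c.Γ τ e) (fun γ => γ.2.2 ⟨j, by omega⟩ = F γ.1 γ.2.1) ≤ 2 * c.X / c.b := by
  have hμ := (hW G c τ true _ _ (adm_one c τ he)).1
  rw [Γ_eq]
  refine (SD_le3 hμ (fun z hz => (nu_pr hA c τ hW hPi hz).2.1)
    (fun z hz => (nu_pr hA c τ hW hPi hz).2.2)
    (fun z ρ σ => σ ⟨j, by omega⟩ = F z ρ) (fun _ => 2 * c.X / c.b) ?_).trans
    (sum_const_mul hμ _).le
  intro z hz ρ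
  exact (hW G c τ false _ _ (adm_last' hA c τ hz)).2.2.2.2.2.1 j (by omega) (F z ρ) h1 h2

include hA hW hPi he in
theorem last_same (j j' : ℕ) (h1 : 1 ≤ j) (h2 : j < j') (h3 : j' < c.len false) :
    Pr (c.Γ τ e) (fun γ => γ.2.2 ⟨j, by omega⟩ = γ.2.2 ⟨j', by omega⟩) ≤ 2 * c.X / c.b := by
  have hμ := (hW G c τ true _ _ (adm_one c τ he)).1
  rw [Γ_eq]
  refine (SD_le3 hμ (fun z hz => (nu_pr hA c τ hW hPi hz).2.1)
    (fun z hz => (nu_pr hA c τ hW hPi hz).2.2)
    (fun z ρ σ => σ ⟨j, by omega⟩ = σ ⟨j', by omega⟩) (fun _ => 2 * c.X / c.b) ?_).trans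
    (sum_const_mul hμ _).le
  intro z hz ρ
  exact (hW G c τ false _ _ (adm_last' hA c τ hz)).2.2.2.2.2.2 j j' (by omega) (by omega) h2
    (by omega)

include hA hW hPi he in
/-- events of the cycle -/
theorem cyc_le (E : (Fin (c.len true + 1) → G) → Prop) :
    Pr (c.Γ τ e) (fun γ => E γ.1) ≤ Pr (c.WL τ true e.2 e.1) E := by
  rw [Γ_eq]
  exact SD_le1 (hW G c τ true _ _ (adm_one c τ he)).1
    (fun z hz => (nu_pr hA c τ hW hPi hz).2.1) (fun z hz => (nu_pr hA c τ hW hPi hz).2.2) E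

theorem Pr_symm {Ω : Type*} [Fintype Ω] (μ : Ω → ℝ) {H : Type*} (f g : Ω → H) :
    Pr μ (fun ω => f ω = g ω) = Pr μ (fun ω => g ω = f ω) := by
  unfold Pr
  refine Finset.sum_congr rfl fun ω _ => ?_
  congr 1
  by_cases h : f ω = g ω
  · rw [ind_of h, ind_of h.symm]
  · rw [ind_not h, ind_not fun h' => h h'.symm]

include hA hW hPi hU he in
/-- (G2) -/
theorem g2 (p p' : c.Pos) (hp : p ≠ p') :
    Pr (c.Γ τ e) (fun γ => c.vx γ p = c.vx γ p') ≤ 2 * c.X / c.b := by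
  have hl := len_t c
  have hl' := len_f c
  have cc : ∀ i i' : Fin (6 * c.k), i < i' →
      Pr (c.Γ τ e) (fun γ => c.vx γ (Sum.inl i) = c.vx γ (Sum.inl i')) ≤ 2 * c.X / c.b := by
    intro i i' h
    have hi := i.2
    have hi' := i'.2
    have h' : (i : ℕ) < i' := h
    refine (cyc_le hA c τ hW hPi he (fun z => z ⟨i + 1, by omega⟩ = z ⟨i' + 1, by omega⟩)).trans ?_
    exact (hW G c τ true _ _ (adm_one c τ he)).2.2.2.2.2.2 (i + 1) (i' + 1) (by omega) (by omega)
      (by omega) (by omega)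
  have rc : ∀ (i : Fin (3 * c.k - 2)) (q : Fin (6 * c.k)) (i' : Fin (6 * c.k)),
      Pr (c.Γ τ e) (fun γ => c.vx γ (Sum.inr (Sum.inl (i, q))) = c.vx γ (Sum.inl i')) ≤
        2 * c.X / c.b := by
    intro i q i'
    have hq := q.2
    exact rung_le hA c τ hW hPi hU he i (q + 1) (by omega) (by omega)
      (fun z _ => z ⟨i' + 1, by have := i'.2; omega⟩) (fun _ _ _ => rfl)
  have rr : ∀ (i i' : Fin (3 * c.k - 2)) (q q' : Fin (6 * c.k)), i ≠ i' →
      Pr (c.Γ τ e) (fun γ => c.vx γ (Sum.inr (Sum.inl (i, q))) =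
        c.vx γ (Sum.inr (Sum.inl (i', q')))) ≤ 2 * c.X / c.b := by
    intro i i' q q' hne
    have hq := q.2
    exact rung_le hA c τ hW hPi hU he i (q + 1) (by omega) (by omega)
      (fun _ ρ => ρ i' ⟨q' + 1, by have := q'.2; omega⟩)
      (fun _ ρ a => by rw [Function.update_of_ne hne.symm])
  have rs : ∀ (i : Fin (3 * c.k - 2)) (q q' : Fin (6 * c.k)), q < q' →
      Pr (c.Γ τ e) (fun γ => c.vx γ (Sum.inr (Sum.inl (i, q))) =
        c.vx γ (Sum.inr (Sum.inl (i, q')))) ≤ 2 * c.X / c.b := by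
    intro i q q' h
    have hq := q.2
    have hq' := q'.2
    have h' : (q : ℕ) < q' := h
    exact rung_same hA c τ hW hPi hU he i (q + 1) (q' + 1) (by omega) (by omega) (by omega)
  have lc : ∀ (q : Fin (6 * c.k - 1)) (i' : Fin (6 * c.k)),
      Pr (c.Γ τ e) (fun γ => c.vx γ (Sum.inr (Sum.inr q)) = c.vx γ (Sum.inl i')) ≤
        2 * c.X / c.b := by
    intro q i'
    have hq := q.2
    exact last_le hA c τ hW hPi he (q + 1) (by omega) (by omega)
      (fun z _ => z ⟨i' + 1, by have := i'.2; omega⟩)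
  have lr : ∀ (q : Fin (6 * c.k - 1)) (i' : Fin (3 * c.k - 2)) (q' : Fin (6 * c.k)),
      Pr (c.Γ τ e) (fun γ => c.vx γ (Sum.inr (Sum.inr q)) =
        c.vx γ (Sum.inr (Sum.inl (i', q')))) ≤ 2 * c.X / c.b := by
    intro q i' q'
    have hq := q.2
    exact last_le hA c τ hW hPi he (q + 1) (by omega) (by omega)
      (fun _ ρ => ρ i' ⟨q' + 1, by have := q'.2; omega⟩)
  have ls : ∀ (q q' : Fin (6 * c.k - 1)), q < q' →
      Pr (c.Γ τ e) (fun γ => c.vx γ (Sum.inr (Sum.inr q)) = c.vx γ (Sum.inr (Sum.inr q'))) ≤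
        2 * c.X / c.b := by
    intro q q' h
    have hq := q.2
    have hq' := q'.2
    have h' : (q : ℕ) < q' := h
    exact last_same hA c τ hW hPi he (q + 1) (q' + 1) (by omega) (by omega) (by omega)
  rcases p with i | ⟨i, q⟩ | q <;> rcases p' with i' | ⟨i', q'⟩ | q'
  · rcases lt_trichotomy i i' with h | h | h
    · exact cc i i' h
    · exact absurd (congrArg _ h) hp
    · rw [Pr_symm]; exact cc i' i h
  · rw [Pr_symm]; exact rc i' q' i
  · rw [Pr_symm]; exact lc q' i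
  · exact rc i q i'
  · by_cases hi : i = i'
    · subst hi
      rcases lt_trichotomy q q' with h | h | h
      · exact rs i q q' h
      · exact absurd (by rw [h]) hp
      · rw [Pr_symm]; exact rs i q' q h
    · exact rr i i' q q' hi
  · rw [Pr_symm]; exact lr q' i q
  · exact lc q i'
  · exact lr q i' q'
  · rcases lt_trichotomy q q' with h | h | h
    · exact ls q q' h
    · exact absurd (by rw [h]) hp
    · rw [Pr_symm]; exact ls q' q h

include hW hK in
/-- the composition of two marginal bounds -/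
theorem two_step (hX : 0 ≤ c.X) (m : ℕ) (h1 : 1 ≤ m) (h2 : m < c.len true) (N2 : Matrix G G ℝ)
    (hN2 : c.TK 1 N2) : ∃ (Np : Matrix G G ℝ) (sd : Bool), c.TK 2 Np ∧
      ∀ e : G × G, e.1⁻¹ * e.2 ∈ Lt c.B c.C τ → ∀ v,
        ∑ z, c.WL τ true e.2 e.1 z * (2 * c.X * N2 (cz c z m) v) ≤
          4 * c.X ^ 2 * Np (if sd then e.1 else e.2) v := by
  obtain ⟨N1, sd, hN1, hb⟩ := mar c τ hW hK true m h1 h2
  obtain ⟨-, -, -, -, -, -, kds, -, kmul, -⟩ := hK G c
  refine ⟨N1 * N2, sd, (kmul 1 1 N1 N2 hN1 hN2.1).1, fun e he v => ?_⟩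
  have hcz : ∀ z : Fin (c.len true + 1) → G, cz c z m = z ⟨m, by omega⟩ := fun z =>
    dif_pos (by omega)
  have h3 : ∑ z, c.WL τ true e.2 e.1 z * (2 * c.X * N2 (cz c z m) v) =
      ∑ a, (2 * c.X * N2 a v) * Pr (c.WL τ true e.2 e.1) (fun z => z ⟨m, by omega⟩ = a) := by
    simp_rw [hcz]
    exact sum_coord _ (fun z : Fin (c.len true + 1) → G => z ⟨m, by omega⟩)
      (fun a => 2 * c.X * N2 a v)
  rw [h3, Matrix.mul_apply, Finset.mul_sum]
  refine Finset.sum_le_sum fun a _ => ?_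
  have h4 := hb e.2 e.1 (adm_one c τ he) a
  have h5 : 0 ≤ N2 a v := (kds 1 N2 hN2.1).nn a v
  calc 2 * c.X * N2 a v * Pr (c.WL τ true e.2 e.1) (fun z => z ⟨m, by omega⟩ = a)
      ≤ 2 * c.X * N2 a v * (2 * c.X * N1 (if sd then e.1 else e.2) a) :=
        mul_le_mul_of_nonneg_left h4 (mul_nonneg (by linarith) h5)
    _ = 4 * c.X ^ 2 * (N1 (if sd then e.1 else e.2) a * N2 a v) := by ring

include hA hW hK hPi hU hNum in
/-- (G1) -/
theorem g1 (p : c.Pos) : ∃ (Np : Matrix G G ℝ) (sd : Bool), c.TK 2 Np ∧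
    ∀ e : G × G, e.1⁻¹ * e.2 ∈ Lt c.B c.C τ → ∀ v,
      Pr (c.Γ τ e) (fun γ => c.vx γ p = v) ≤ 4 * c.X ^ 2 * Np (if sd then e.1 else e.2) v := by
  have hl := len_t c
  have hl' := len_f c
  have hk := c.hk1
  have hX : (1 : ℝ) ≤ c.X := by
    have := (hNum G c).1
    linarith
  have kall := hK G c
  rcases p with i | ⟨i, q⟩ | q
  · have hi := i.2
    obtain ⟨N, sd, hN, hb⟩ := mar c τ hW hK true (i + 1) (by omega) (by omega)
    obtain ⟨-, -, -, -, -, -, kds, -, -, kmono, -⟩ := kall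
    refine ⟨N, sd, kmono 1 2 N (by norm_num) hN, fun e he v => ?_⟩
    refine (cyc_le hA c τ hW hPi he (fun z => z ⟨i + 1, by omega⟩ = v)).trans
      ((hb e.2 e.1 (adm_one c τ he) v).trans ?_)
    have h5 : 0 ≤ N (if sd then e.1 else e.2) v := (kds 1 N hN.1).nn _ v
    have h6 : 2 * c.X ≤ 4 * c.X ^ 2 := by nlinarith
    exact mul_le_mul_of_nonneg_right h6 h5
  · have hi := i.2
    have hq := q.2
    obtain ⟨N2, sd2, hN2, hb2⟩ := mar c τ hW hK true (q + 1) (by omega) (by omega)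
    have hm : ∃ m : ℕ, 1 ≤ m ∧ m < c.len true ∧ ∀ z : Fin (c.len true + 1) → G,
        (if sd2 then cz c z (2 * i + 5) else cz c z (2 * i + 2)) = cz c z m := by
      cases sd2
      · exact ⟨2 * i + 2, by omega, by omega, fun z => rfl⟩
      · exact ⟨2 * i + 5, by omega, by omega, fun z => rfl⟩
    obtain ⟨m, m1, m2, m3⟩ := hm
    obtain ⟨Np, sd, hNp, hf⟩ := two_step c τ hW hK (by linarith) m m1 m2 N2 hN2
    refine ⟨Np, sd, hNp, fun e he v => le_trans ?_ (hf e he v)⟩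
    have hμ := (hW G c τ true _ _ (adm_one c τ he)).1
    rw [Γ_eq]
    refine SD_le2 hμ (fun z hz => (nu_pr hA c τ hW hPi hz).2.1)
      (fun z hz => (nu_pr hA c τ hW hPi hz).2.2)
      (fun z ρ => ρ i ⟨q + 1, by omega⟩ = v) (fun z => 2 * c.X * N2 (cz c z m) v) ?_
    intro z hz
    refine hU.2 _ _ _ (nu_pr hA c τ hW hPi hz).1 _ i _ fun ρ => ?_
    simp only [Function.update_self]
    have := hb2 _ _ (adm_rung hA c τ hz (i := 2 * i + 2) (by omega)) v
    rw [show 2 * (i : ℕ) + 2 + 3 = 2 * i + 5 by ring, m3 z] at this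
    exact this
  · have hq := q.2
    obtain ⟨N2, sd2, hN2, hb2⟩ := mar c τ hW hK false (q + 1) (by omega) (by omega)
    have hm : ∃ m : ℕ, 1 ≤ m ∧ m < c.len true ∧ ∀ z : Fin (c.len true + 1) → G,
        (if sd2 then cz c z (6 * c.k) else cz c z (6 * c.k - 2)) = cz c z m := by
      cases sd2
      · exact ⟨6 * c.k - 2, by omega, by omega, fun z => rfl⟩
      · exact ⟨6 * c.k, by omega, by omega, fun z => rfl⟩
    obtain ⟨m, m1, m2, m3⟩ := hm
    obtain ⟨Np, sd, hNp, hf⟩ := two_step c τ hW hK (by linarith) m m1 m2 N2 hN2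
    refine ⟨Np, sd, hNp, fun e he v => le_trans ?_ (hf e he v)⟩
    have hμ := (hW G c τ true _ _ (adm_one c τ he)).1
    rw [Γ_eq]
    refine SD_le3 hμ (fun z hz => (nu_pr hA c τ hW hPi hz).2.1)
      (fun z hz => (nu_pr hA c τ hW hPi hz).2.2)
      (fun z ρ σ => σ ⟨q + 1, by omega⟩ = v) (fun z => 2 * c.X * N2 (cz c z m) v) ?_
    intro z hz ρ
    have := hb2 _ _ (adm_last' hA c τ hz) v
    rw [m3 z] at this
    exact this

end main

/-- Module GLAW. -/
theorem glaw (hA : ADJ_S.{u}) (hW : WLK_S.{u}) (hK : PKS_S.{u}) (hPi : PIPR_S.{0, u})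
    (hU : UPD_S.{0, u}) (hNum : NUM_S.{u}) : GLAW_S.{u} := by
  intro G _ _ _ c τ
  exact ⟨fun e he => Γ_isPr hA c τ hW hPi he, g1 hA c τ hW hK hPi hU hNum,
    fun e he p p' hp => g2 hA c τ hW hPi hU he p p' hp⟩

end Pool.Agent.Lib.MP_688fd0_co.TE.H39
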